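import Pool.Agent.R955.FD.All
import Pool.Agent.R955.FD.Rtt
import Pool.Agent.R711.FDLQ
import Pool.Agent.R92.FDENL
import Pool.Agent.R955.FD.RIE
import Pool.Agent.R818.FDDEC
import Pool.Agent.R842.FDSML
import Pool.Agent.R478.FD.UPL
import Pool.Agent.R209.FD.Dwn
import Pool.Agent.R860.FD.TNC
import Pool.Agent.R718.FDBRI
import Pool.Agent.R999.FD.POI
import Pool.Agent.R656.FD.Abs
import Pool.Agent.H173FD.FDCOV
import Pool.Agent.R799.FDFIN
import Pool.Agent.R510.FDUPP
import Pool.Agent.R569.FD.LOW
import Pool.Agent.R374.FD.TRV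
import Pool.Agent.R64.FDONE
import Pool.Agent.R584.FDKER
import Pool.Agent.R783.FDNRM
import Pool.Agent.HP981.FDDRT

/-!
# MP_0880e2_an: Fourier decomposition properties on the circle and on the line are equivalent

The definitions are in `Pool/Agent/R955/FD/Defs.lean`.

* From the line to the circle: multiply a trigonometric polynomial by a Schwartz function `φ` whose Fourier
  transform is supported in a small interval; the norms over the circle and over the line are comparable, and
  `D_I` on the line acts on `φ f` as `D_I` on the circle acts on `f`.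
* From the circle to the line: replace `f` by the Riemann sums `N⁻¹ ∑ g(n/N) e_n` of its Fourier integral,
  `g = 𝓕 f`. Their norms in `L^p` of the circle, multiplied by `N ^ (1/p)`, are comparable (with constant
  `π/2`) with the norm of `f` in the limit, and for `p = 1` in the lower case Poisson summation is used. For
  the upper estimates one first reduces to partitions with finitely many members in the support of `g`
  (by compactness of the set of accumulation of end points and smallness of short intervals). The case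
  `p = 1 < q` is void: `X = 0`.
-/

namespace Pool.Agent.Results.MP_0880e2_an.CircleLineEquivalence

open Pool.Agent.R955.FD
open scoped ENNReal

universe u

/-- **Main theorem.** For every complex Banach space `X` and all `p, q ∈ [1, ∞]`, `X` has upper
`ℓ^q(L^p)`-decompositions on the circle if and only if it has them on the line, and likewise for lower
decompositions. -/
theorem result (X : Type u) [NormedAddCommGroup X] [NormedSpace ℂ X] [CompleteSpace X] (p q : ℝ≥0∞)
    (hp : 1 ≤ p) (hq : 1 ≤ q) :
    (UpperT X p q ↔ UpperR X p q) ∧ (LowerT X p q ↔ LowerR X p q) := by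
  have hLQ : S_LQ := Pool.Agent.R711.FDLQ.t_LQ
  have hENL : S_ENL.{u} := Pool.Agent.R92.FDENL.t_ENL
  have hRIE : S_RIE.{u} := Pool.Agent.R955.FD.RIE.t_RIE
  have hDEC : S_DEC.{u} := Pool.Agent.R818.FDDEC.t_DEC
  have hSML : S_SML.{u} := Pool.Agent.R842.FDSML.t_SML hDEC
  have hUPL : S_UPL.{u} := Pool.Agent.R478.FD.t_UPL hRIE hDEC
  have hDWN : S_DWN.{u} := Pool.Agent.R209.FD.t_DWN hRIE
  have hTNC : S_TNC.{u} := Pool.Agent.R860.FD.t_TNC
  have hBRI : S_BRI.{u} := Pool.Agent.R718.FD.t_BRI
  have hPOI : S_POI.{u} := Pool.Agent.R999.FD.t_POI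
  have hABS : S_ABS := Pool.Agent.R656.FD.t_ABS hLQ
  have hCOV : S_COV := Pool.Agent.H173FD.t_COV hABS
  have hFIN : S_FIN.{u} := Pool.Agent.R799.FDFIN.t_FIN hUPL hDWN hTNC hLQ hENL hDEC
  have hUPP : S_UPP.{u} := Pool.Agent.R510.FDUPP.t_UPP hBRI hDEC hSML hCOV hFIN
  have hLOW : S_LOW.{u} := Pool.Agent.R569.FDLOW.t_LOW hBRI hPOI hUPL hDWN hTNC hLQ hENL hDEC
  have hTRV : S_TRV.{u} := Pool.Agent.R374.FD.t_TRV
  have hONE : S_ONE.{u} := Pool.Agent.R64.FDONE.t_ONE hBRI hDEC
  have hKER : S_KER := Pool.Agent.R955.FD.t_KER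
  have hNRM : S_NRM.{u} := Pool.Agent.R783.FDNRM.t_NRM
  have hDRT : S_DRT.{u} := Pool.Agent.HP981.FDDRT.t_DRT
  have hRTT : S_RTT.{u} := Pool.Agent.R955.FD.t_RTT hKER hNRM hDRT hLQ
  exact Pool.Agent.R955.FD.t_ALL hUPP hLOW hTRV hONE hRTT X p q hp hq

end Pool.Agent.Results.MP_0880e2_an.CircleLineEquivalence
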